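import Pool.Agent.TH882.T3

/-!
Several Goldbach problems with one common prime from a cluster: for all but a proportion `κ` of the
vectors `(n_1, ..., n_r)` without local obstruction there are at least `c x / (log x) ^ (r + 1)` primes
`p ≤ x` with `m` other primes of their class modulo `q` at distance at most `ε log x` such that
`√(2 n_j) < p < n_j` and `2 n_j - p` is prime for every `j`.
-/

set_option autoImplicit false

open Finset Filter Topology

namespace Pool.Agent.Results.MP_33f996_nt.CommonClusteredPrime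

open Classical in
/-- The primes different from `p`, congruent to `p` modulo `q`, at distance at most `R` from `p`. -/
noncomputable def neighbours (q : ℕ) (R : ℝ) (p : ℕ) : Finset ℕ :=
  (Icc 1 (p + ⌊R⌋₊)).filter (fun p' => p'.Prime ∧ p' ≠ p ∧ p' % q = p % q ∧ |(p' : ℝ) - p| ≤ R)

/-- For every prime `l` there is an integer `a` such that `l` divides none of the numbers `a` and
`2 n_j - a`. -/
def LocallyPossible {r : ℕ} (n : Fin r → ℕ) : Prop :=
  ∀ l : ℕ, l.Prime → ∃ a : ℤ, ¬ (l : ℤ) ∣ a ∧ ∀ j, ¬ (l : ℤ) ∣ 2 * n j - a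

open Classical in
/-- The primes `p ≤ x` with at least `m` neighbours at distance at most `ε * log x`
such that `√(2 n_j) < p < n_j` and `2 n_j - p` is prime for every `j`. -/
noncomputable def commonPrimes {r : ℕ} (q m : ℕ) (ε : ℝ) (n : Fin r → ℕ) (x : ℕ) : Finset ℕ :=
  (Icc 1 x).filter (fun p => p.Prime ∧ m ≤ (neighbours q (ε * Real.log x) p).card ∧
    ∀ j, Real.sqrt (2 * n j) < p ∧ p < n j ∧ (2 * n j - p).Prime)

open Classical in
/-- The locally possible vectors `1 ≤ n_j ≤ K x` with few common primes. -/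
noncomputable def exceptions (r q m : ℕ) (ε c : ℝ) (K x : ℕ) : Finset (Fin r → ℕ) :=
  (Fintype.piFinset (fun _ : Fin r => Icc 1 (K * x))).filter (fun n =>
    LocallyPossible n ∧
    ((commonPrimes q m ε n x).card : ℝ) < c * (x / Real.log x ^ (r + 1)))

theorem result (r q m K : ℕ) (hq : 1 ≤ q) (ε κ : ℝ) (hε : 0 < ε) (hκ : 0 < κ) :
    (∃ c : ℝ, 0 < c ∧ ∃ x₀ : ℕ, ∀ x : ℕ, x₀ ≤ x →
      ((exceptions r q m ε c K x).card : ℝ) ≤ κ * (x : ℝ) ^ r) ∧
    (∀ n : ℕ, LocallyPossible (fun _ : Fin 1 => n)) ∧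
    ∀ n n' : ℕ, LocallyPossible ![n, n'] ↔ n % 3 = 0 ∨ n' % 3 = 0 ∨ n % 3 = n' % 3 := by
  classical
  have two : ∀ (n n' l : ℕ), l.Prime → 5 ≤ l →
      ∃ a : ℤ, ¬ (l : ℤ) ∣ a ∧ ¬ (l : ℤ) ∣ 2 * n - a ∧ ¬ (l : ℤ) ∣ 2 * n' - a := by
    intro n n' l hlp hl5
    obtain ⟨a, h1, h2⟩ := Pool.Agent.TH882.TS.wit (fun _ : Fin 2 => (-1 : ℤ))
      (fun _ => Or.inr rfl) (fun _ => (Polynomial.X : Polynomial ℤ)) (fun _ => by simp) l hlp
      (fun _ hd => by
        rw [Polynomial.leadingCoeff_X] at hd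
        have := Int.le_of_dvd one_pos hd
        omega) (by simp; omega) ![2 * n, 2 * n']
    refine ⟨a, h1, fun hd => h2 0 ?_, fun hd => h2 1 ?_⟩
    · show (l : ℤ) ∣ ((2 * n : ℕ) : ℤ) + -1 * Polynomial.eval a Polynomial.X
      have e1 : ((2 * n : ℕ) : ℤ) + -1 * a = 2 * n - a := by push_cast; ring
      rw [Polynomial.eval_X, e1]
      exact hd
    · show (l : ℤ) ∣ ((2 * n' : ℕ) : ℤ) + -1 * Polynomial.eval a Polynomial.X
      have e1 : ((2 * n' : ℕ) : ℤ) + -1 * a = 2 * n' - a := by push_cast; ring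
      rw [Polynomial.eval_X, e1]
      exact hd
  have pair : ∀ n n' : ℕ, (n % 3 = 0 ∨ n' % 3 = 0 ∨ n % 3 = n' % 3) → ∀ l : ℕ, l.Prime →
      ∃ a : ℤ, ¬ (l : ℤ) ∣ a ∧ ¬ (l : ℤ) ∣ 2 * n - a ∧ ¬ (l : ℤ) ∣ 2 * n' - a := by
    intro n n' h l hlp
    rcases Nat.lt_or_ge l 5 with h5 | h5
    · have hl2 := hlp.two_le
      have hl4 : l ≠ 4 := by
        rintro rfl
        exact absurd hlp (by norm_num)
      have h6 : l = 2 ∨ l = 3 := by omega
      rcases h6 with rfl | rfl
      · refine ⟨1, fun hd => ?_, fun hd => ?_, fun hd => ?_⟩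
        · have e1 : (1 : ℤ) % 2 = 0 := Int.emod_eq_zero_of_dvd (by exact_mod_cast hd)
          omega
        · have e1 : (2 * (n : ℤ) - 1) % 2 = 0 := Int.emod_eq_zero_of_dvd (by exact_mod_cast hd)
          omega
        · have e1 : (2 * (n' : ℤ) - 1) % 2 = 0 := Int.emod_eq_zero_of_dvd (by exact_mod_cast hd)
          omega
      · by_cases h7 : n % 3 = 2 ∨ n' % 3 = 2
        · refine ⟨2, fun hd => ?_, fun hd => ?_, fun hd => ?_⟩
          · have e1 : (2 : ℤ) % 3 = 0 := Int.emod_eq_zero_of_dvd (by exact_mod_cast hd)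
            omega
          · have e1 : (2 * (n : ℤ) - 2) % 3 = 0 := Int.emod_eq_zero_of_dvd (by exact_mod_cast hd)
            omega
          · have e1 : (2 * (n' : ℤ) - 2) % 3 = 0 := Int.emod_eq_zero_of_dvd (by exact_mod_cast hd)
            omega
        · refine ⟨1, fun hd => ?_, fun hd => ?_, fun hd => ?_⟩
          · have e1 : (1 : ℤ) % 3 = 0 := Int.emod_eq_zero_of_dvd (by exact_mod_cast hd)
            omega
          · have e1 : (2 * (n : ℤ) - 1) % 3 = 0 := Int.emod_eq_zero_of_dvd (by exact_mod_cast hd)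
            omega
          · have e1 : (2 * (n' : ℤ) - 1) % 3 = 0 := Int.emod_eq_zero_of_dvd (by exact_mod_cast hd)
            omega
    · exact two n n' l hlp h5
  refine ⟨?_, ?_, ?_⟩
  · obtain ⟨c, hc, x₀, h⟩ := Pool.Agent.TH882.TS.gold_nb r q m hq ε hε (2 * K) κ hκ
    refine ⟨c, hc, x₀, fun x hx => ?_⟩
    refine le_trans ?_ (h x hx)
    apply Nat.cast_le.2
    apply card_le_card_of_injOn (fun n : Fin r → ℕ => fun j => 2 * n j)
    · intro n hn
      have hn' := mem_coe.1 hn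
      unfold exceptions at hn'
      rw [mem_filter, Fintype.mem_piFinset] at hn'
      obtain ⟨h1, h2, h3⟩ := hn'
      rw [mem_coe, mem_filter, Fintype.mem_piFinset]
      refine ⟨fun j => ?_, ?_, lt_of_le_of_lt (Nat.cast_le.2 (card_le_card ?_)) h3⟩
      · have h4 := mem_Icc.1 (h1 j)
        show 2 * n j ∈ Icc 1 (2 * K * x)
        rw [mem_Icc]
        refine ⟨by omega, ?_⟩
        have h5 : 2 * n j ≤ 2 * (K * x) := Nat.mul_le_mul_left _ h4.2
        have h6 : 2 * (K * x) = 2 * K * x := by ring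
        omega
      · intro l hlp
        obtain ⟨a, ha1, ha2⟩ := h2 l hlp
        refine ⟨a, ha1, fun j hd => ha2 j ?_⟩
        push_cast at hd
        exact hd
      · intro p hp
        rw [Pool.Agent.TH882.TS.mem_cmn] at hp
        unfold commonPrimes
        rw [mem_filter]
        refine ⟨hp.1, hp.2.1, hp.2.2.1, fun j => ?_⟩
        obtain ⟨h4, h5, h6⟩ := hp.2.2.2 j
        simp only at h4 h5 h6
        refine ⟨?_, by omega, h6⟩
        rw [Real.sqrt_lt' (by exact_mod_cast hp.2.1.pos)]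
        exact_mod_cast h4
    · intro n _ n' _ hnn
      funext j
      have h4 := congrFun hnn j
      simp only at h4
      omega
  · intro n l hlp
    obtain ⟨a, h1, h2, -⟩ := pair n n (Or.inr (Or.inr rfl)) l hlp
    exact ⟨a, h1, fun _ => h2⟩
  · intro n n'
    constructor
    · intro h
      obtain ⟨a, h1, h2⟩ := h 3 Nat.prime_three
      have h3 := h2 0
      have h4 := h2 1
      simp only [Matrix.cons_val_zero, Matrix.cons_val_one] at h3 h4
      push_cast at h1 h3 h4
      have ha : a % 3 = 1 ∨ a % 3 = 2 := by omega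
      have hn : n % 3 = 0 ∨ n % 3 = 1 ∨ n % 3 = 2 := by omega
      have hn' : n' % 3 = 0 ∨ n' % 3 = 1 ∨ n' % 3 = 2 := by omega
      rcases ha with ha | ha <;> rcases hn with hn | hn | hn <;> rcases hn' with hn' | hn' | hn' <;>
        omega
    · intro h l hlp
      obtain ⟨a, h1, h2, h3⟩ := pair n n' h l hlp
      refine ⟨a, h1, fun j => ?_⟩
      fin_cases j
      · exact h2
      · exact h3

end Pool.Agent.Results.MP_33f996_nt.CommonClusteredPrime
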