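import Mathlib
import Pool.Agent.TH881.RK.GoldIn
import Pool.Agent.TH881.RQ.Wrap

/-!
# Goldbach partitions with a common prime from a dense set of primes

Let `A` be a set of primes. For which vectors `N = (N 1, ..., N m)` of even numbers is there a common
prime `p` in `A`, with `√(N j) < p < N j / 2` and `N j - p` prime for all `j`? (For `m = 1`: Goldbach
partitions of `N` with a prime of `A` in `(√N, N / 2)`.) The least possible lower density `F m β` of
the set of these vectors, for sets `A` of relative lower density at least `β`, is for every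
`0 < β < 1` equal to a finite local extremal quantity, and it is equal to the corresponding quantity
for prime tuples `p, p + h 1, ..., p + h m`, `p` in `A`. It determines the largest possible upper
density `worst m δ` of the lost vectors (no local obstruction, but no common prime) after the deletion
of a proportion `δ` of the primes, and the two functions have exact asymptotics near `0`.
-/

set_option autoImplicit false

namespace Pool.Agent.Results.MP_33f996_nt.CommonSummandLaws
open Finset Filter Topology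

open Classical in
/-- The number of elements of `S` in `[1, x]`. -/
noncomputable def count (S : Set ℕ) (x : ℕ) : ℕ := ((Icc 1 x).filter (fun n => n ∈ S)).card

/-- The lower density, relative to the set of all primes, of the set of the primes in `A`. -/
noncomputable def relLower (A : Set ℕ) : ℝ :=
  liminf (fun x : ℕ => (count {p | p.Prime ∧ p ∈ A} x : ℝ) / (count {p | p.Prime} x : ℝ)) atTop

open Classical in
/-- The number of the vectors in `S` with entries in `[1, x]`. -/
noncomputable def countVec {m : ℕ} (S : Set (Fin m → ℕ)) (x : ℕ) : ℕ :=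
  ((Fintype.piFinset (fun _ : Fin m => Icc 1 x)).filter (fun h => h ∈ S)).card

/-- The lower density of a set of vectors. -/
noncomputable def lowerVec {m : ℕ} (S : Set (Fin m → ℕ)) : ℝ :=
  liminf (fun x : ℕ => (countVec S x : ℝ) / (x : ℝ) ^ m) atTop

/-- The upper density of a set of vectors. -/
noncomputable def upperVec {m : ℕ} (S : Set (Fin m → ℕ)) : ℝ :=
  limsup (fun x : ℕ => (countVec S x : ℝ) / (x : ℝ) ^ m) atTop

/-- The vectors `N` for which some prime `p` in `A` satisfies `√(N j) < p < N j / 2` (that is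
`N j < p ^ 2` and `2 p < N j`) and has `N j - p` prime, for all `j`. -/
def common (m : ℕ) (A : Set ℕ) : Set (Fin m → ℕ) :=
  {N | ∃ p ∈ A, p.Prime ∧ ∀ j, N j < p ^ 2 ∧ 2 * p < N j ∧ (N j - p).Prime}

/-- No local obstruction: for every prime `q` some integer `a`, not divisible by `q`, has no
`N j - a` divisible by `q`. -/
def Admissible {m : ℕ} (N : Fin m → ℕ) : Prop :=
  ∀ q : ℕ, q.Prime → ∃ a : ℕ, ¬ q ∣ a ∧ ∀ j, ¬ (q : ℤ) ∣ (N j : ℤ) - a

/-- The lost vectors: no local obstruction, but no common prime. -/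
def lost (m : ℕ) (A : Set ℕ) : Set (Fin m → ℕ) := {N | Admissible N ∧ N ∉ common m A}

/-- The least lower density of `common m A` for sets `A` of primes of relative lower density at
least `β`. -/
noncomputable def F (m : ℕ) (β : ℝ) : ℝ := sInf {d | ∃ A : Set ℕ, β ≤ relLower A ∧ d = lowerVec (common m A)}

/-- The largest upper density of `lost m A` for sets `A` of primes of relative lower density at
least `1 - δ`. -/
noncomputable def worst (m : ℕ) (δ : ℝ) : ℝ :=
  sSup {d | ∃ A : Set ℕ, 1 - δ ≤ relLower A ∧ d = upperVec (lost m A)}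

/-- The vectors `h` for which some prime `p` in `A` has all `p + h j` prime. -/
def tuples (m : ℕ) (A : Set ℕ) : Set (Fin m → ℕ) := {h | ∃ p ∈ A, p.Prime ∧ ∀ j, (p + h j).Prime}

/-- The least lower density of `tuples m A` for sets `A` of primes of relative lower density at
least `β`. -/
noncomputable def Ftuples (m : ℕ) (β : ℝ) : ℝ :=
  sInf {d | ∃ A : Set ℕ, β ≤ relLower A ∧ d = lowerVec (tuples m A)}

/-- The product of the primes up to `w`. -/
def P (w : ℕ) : ℕ := ∏ p ∈ (Icc 1 w).filter Nat.Prime, p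

instance (w : ℕ) : NeZero (P w) := ⟨(Pool.Agent.TH881.Wp_pos w).ne'⟩

open Classical in
/-- The residue classes modulo `n` which are units. -/
noncomputable def units (n : ℕ) [NeZero n] : Finset (ZMod n) := univ.filter (fun a => IsUnit a)

open Classical in
/-- The vectors `t` of residue classes modulo `n` such that some `a ∈ B` has all `t j + a` units. -/
noncomputable def localHit (m n : ℕ) [NeZero n] (B : Finset (ZMod n)) : Finset (Fin m → ZMod n) :=
  univ.filter (fun t => ∃ a ∈ B, ∀ j, IsUnit (t j + a))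

/-- The local minimum: the infimum of `|localHit m (P w) B| / (P w) ^ m` over all `w` and all sets `B` of
at least `β φ(P w)` units modulo `P w`. -/
noncomputable def localF (m : ℕ) (β : ℝ) : ℝ := sInf {d | ∃ w : ℕ, ∃ B ⊆ units (P w),
  β * (units (P w)).card ≤ B.card ∧ d = ((localHit m (P w) B).card : ℝ) / (P w : ℝ) ^ m}

/-- The minimal singular series of `m + 1` numbers: the product over all primes `p` of
`(1 - min (m, p - 2) / (p - 1)) / (1 - 1 / p) ^ m` (the partial products over the primes up to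
`z + m + 1`, `z = 0, 1, ...`, are decreasing). -/
noncomputable def singularMin (m : ℕ) : ℝ :=
  ⨅ z : ℕ, ∏ p ∈ (Icc 1 (z + m + 1)).filter Nat.Prime,
    ((1 - ((min m (p - 2) : ℕ) : ℝ) / ((p - 1 : ℕ) : ℝ)) / (1 - 1 / (p : ℝ)) ^ m)

lemma relq_eq (A : Set ℕ) : relLower A = Pool.Agent.TH881.RQ.relq true A := by
  rw [Pool.Agent.TH881.RQ.relq_true]
  rfl

lemma common_eq (m : ℕ) (A : Set ℕ) : common m A = Pool.Agent.TH881.RK.hitG true m A := by
  ext h
  constructor
  · rintro ⟨n, hn, hp, hj⟩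
    exact ⟨n, hn, fun _ => hp, hj⟩
  · rintro ⟨n, hn, hp, hj⟩
    exact ⟨n, hn, hp rfl, hj⟩

lemma tuples_eq (m : ℕ) (A : Set ℕ) : tuples m A = Pool.Agent.TH881.RK.hitk true m A := by
  ext h
  constructor
  · rintro ⟨n, hn, hp, hj⟩
    exact ⟨n, hn, fun _ => hp, hj⟩
  · rintro ⟨n, hn, hp, hj⟩
    exact ⟨n, hn, hp rfl, hj⟩

lemma adm_eq {m : ℕ} (h : Fin m → ℕ) : Admissible h ↔ Pool.Agent.TH881.RK.AdmG true h := by
  constructor
  · intro h1 q hq
    obtain ⟨a, ha, hb⟩ := h1 q hq
    exact ⟨a, fun _ => ha, hb⟩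
  · intro h1 q hq
    obtain ⟨a, ha, hb⟩ := h1 q hq
    exact ⟨a, ha rfl, hb⟩

lemma lost_eq (m : ℕ) (A : Set ℕ) : lost m A = Pool.Agent.TH881.RK.losG true m A := by
  ext h
  constructor
  · rintro ⟨h1, h2⟩
    exact ⟨(adm_eq h).1 h1, by rw [← common_eq]; exact h2⟩
  · rintro ⟨h1, h2⟩
    exact ⟨(adm_eq h).2 h1, by rw [common_eq]; exact h2⟩

lemma F_eq (m : ℕ) (β : ℝ) : F m β = Pool.Agent.TH881.RK.FFG true m β := by
  unfold F Pool.Agent.TH881.RK.FFG
  congr 1
  ext d
  constructor
  · rintro ⟨A, hA, hd⟩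
    refine ⟨A, by rw [← relq_eq]; exact hA, ?_⟩
    rw [hd, common_eq]
    rfl
  · rintro ⟨A, hA, hd⟩
    refine ⟨A, by rw [relq_eq]; exact hA, ?_⟩
    rw [hd, common_eq]
    rfl

lemma Ftuples_eq (m : ℕ) (β : ℝ) : Ftuples m β = Pool.Agent.TH881.RK.FFk true m β := by
  unfold Ftuples Pool.Agent.TH881.RK.FFk
  congr 1
  ext d
  constructor
  · rintro ⟨A, hA, hd⟩
    refine ⟨A, by rw [← relq_eq]; exact hA, ?_⟩
    rw [hd, tuples_eq]
    rfl
  · rintro ⟨A, hA, hd⟩
    refine ⟨A, by rw [relq_eq]; exact hA, ?_⟩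
    rw [hd, tuples_eq]
    rfl

lemma worst_eq (m : ℕ) (δ : ℝ) : worst m δ = Pool.Agent.TH881.RK.MDG true m δ := by
  unfold worst Pool.Agent.TH881.RK.MDG
  congr 1
  ext d
  constructor
  · rintro ⟨A, hA, hd⟩
    refine ⟨A, by rw [← relq_eq]; exact hA, ?_⟩
    rw [hd, lost_eq]
    rfl
  · rintro ⟨A, hA, hd⟩
    refine ⟨A, by rw [relq_eq]; exact hA, ?_⟩
    rw [hd, lost_eq]
    rfl

lemma mem_localHit {m n : ℕ} [NeZero n] {B : Finset (ZMod n)} {t : Fin m → ZMod n} :
    t ∈ localHit m n B ↔ ∃ a ∈ B, ∀ j, IsUnit (t j + a) := by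
  classical
  unfold localHit
  rw [mem_filter]
  exact ⟨fun h => h.2, fun h => ⟨mem_univ _, h⟩⟩

open Pool.Agent.TH881 Pool.Agent.TH881.RK in
lemma localHit_eq (m w : ℕ) [NeZero (Wp w)] (B : Finset (ZMod (Wp w))) : localHit m (Wp w) B = sumk m w B := by
  apply Finset.ext
  intro t
  rw [mem_localHit, mem_sumk']
  exact Iff.rfl

open Pool.Agent.TH881 Pool.Agent.TH881.RQ Pool.Agent.TH881.RK in
lemma AA_units (w : ℕ) [NeZero (Wp w)] : AA true w = units (Wp w) := by
  classical
  apply Finset.ext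
  intro a
  unfold AA units
  rw [mem_filter, mem_filter]
  exact ⟨fun h => ⟨mem_univ _, h.2 rfl⟩, fun h => ⟨mem_univ _, fun _ => h.2⟩⟩

open Pool.Agent.TH881 Pool.Agent.TH881.RQ Pool.Agent.TH881.RK in
lemma key (m w n : ℕ) [NeZero n] (h : n = Wp w) (β d : ℝ) :
    (∃ B ⊆ units n, β * (units n).card ≤ B.card ∧ d = ((localHit m n B).card : ℝ) / (n : ℝ) ^ m) ↔
    (∃ B ⊆ AA true w, β * (AA true w).card ≤ B.card ∧ d = ((sumk m w B).card : ℝ) / (Wp w : ℝ) ^ m) := by
  subst h
  constructor
  · rintro ⟨B, h0, hB, hd⟩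
    refine ⟨B, ?_, ?_, ?_⟩
    · rw [AA_units]; exact h0
    · rw [AA_units]
      exact hB
    · rw [hd, localHit_eq]
  · rintro ⟨B, h0, hB, hd⟩
    refine ⟨B, ?_, ?_, ?_⟩
    · rw [AA_units] at h0; exact h0
    · rw [AA_units] at hB
      exact hB
    · rw [hd, localHit_eq]

open Pool.Agent.TH881 Pool.Agent.TH881.RQ Pool.Agent.TH881.RK in
lemma localF_eq (m : ℕ) (β : ℝ) : localF m β = LFk true m β := by
  unfold localF LFk
  refine congrArg sInf (Set.ext fun d => ⟨?_, ?_⟩)
  · rintro ⟨w, h⟩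
    exact ⟨w, (key m w (P w) rfl β d).1 h⟩
  · rintro ⟨w, h⟩
    exact ⟨w, (key m w (P w) rfl β d).2 h⟩

/-- **Common primes of a dense set in Goldbach partitions.** Let `m ≥ 1`. (1) For `0 < β < 1` the least
density `F m β` is given by the local formula, and (2) it is the same as for the prime tuples
`p, p + h 1, ..., p + h m`. (3) The set of the admissible vectors has a density `d`, and
`worst m δ = d - F m (1 - δ)`. (4) `(log log (1 / β)) ^ m F m β → e ^ (-m γ)` as `β → 0+`.
(5) `δ (log log (1 / worst m δ)) ^ m → e ^ (-m γ) singularMin m > 0` as `δ → 0+`. -/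
theorem result (m : ℕ) (hm : 1 ≤ m) :
    (∀ β : ℝ, 0 < β → β < 1 → F m β = localF m β) ∧
    (∀ β : ℝ, 0 < β → β < 1 → F m β = Ftuples m β) ∧
    (∃ d : ℝ, Tendsto (fun x : ℕ => (countVec {N : Fin m → ℕ | Admissible N} x : ℝ) / (x : ℝ) ^ m)
        atTop (𝓝 d) ∧ ∀ δ : ℝ, 0 ≤ δ → worst m δ = d - F m (1 - δ)) ∧
    Tendsto (fun β : ℝ => Real.log (Real.log (1 / β)) ^ m * F m β) (𝓝[>] 0)
      (𝓝 (Real.exp (-(m * Real.eulerMascheroniConstant)))) ∧
    0 < singularMin m ∧
    Tendsto (fun δ : ℝ => δ * Real.log (Real.log (1 / worst m δ)) ^ m) (𝓝[>] 0)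
      (𝓝 (Real.exp (-(m * Real.eulerMascheroniConstant)) * singularMin m)) := by
  have e4 : singularMin m = Pool.Agent.TH881.RK.SSk true m := by
    unfold singularMin Pool.Agent.TH881.RK.SSk
    congr 1
  refine ⟨?_, ?_, ?_, ?_, ?_, ?_⟩
  · intro β h1 h2
    rw [F_eq, localF_eq, Pool.Agent.TH881.RK.FFG_eq_FFk true m hm β h1 h2]
    exact Pool.Agent.TH881.RK.FFk_loc_in true m hm β h1 h2
  · intro β h1 h2
    rw [F_eq, Ftuples_eq]
    exact Pool.Agent.TH881.RK.FFG_eq_FFk true m hm β h1 h2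
  · obtain ⟨h1, h2⟩ := Pool.Agent.TH475.J4455.dual_G true m hm
    refine ⟨Pool.Agent.TH881.RK.ldk {h : Fin m → ℕ | Pool.Agent.TH881.RK.Admk true h}, ?_, fun δ hδ => ?_⟩
    · have e : {h : Fin m → ℕ | Admissible h} = {h : Fin m → ℕ | Pool.Agent.TH881.RK.AdmG true h} := by
        ext h
        exact adm_eq h
      rw [e]
      exact h1
    · rw [worst_eq, F_eq]
      exact h2 δ hδ
  · have e : F m = Pool.Agent.TH881.RK.FFG true m := funext (F_eq m)
    rw [e]
    exact Pool.Agent.TH881.RK.lawG_zero_in true m hm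
  · rw [e4]
    exact (Pool.Agent.TH81.J3805.stLim_in true m).1
  · have e : worst m = Pool.Agent.TH881.RK.MDG true m := funext (worst_eq m)
    rw [e, e4]
    exact Pool.Agent.TH881.RK.lawG_one_in true m hm

end Pool.Agent.Results.MP_33f996_nt.CommonSummandLaws
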