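import Pool.Agent.TH423.GB.Main

set_option autoImplicit false

open Finset Filter Topology

namespace Pool.Agent.Results.MP_33f996_nt.GoldbachDifferenceSets

/-- at most `R` prime factors (with multiplicity), all larger than `y` -/
def AlmostPrime (y : ℝ) (R : ℕ) (m : ℕ) : Prop :=
  (∀ p : ℕ, p.Prime → p ∣ m → y < p) ∧ ArithmeticFunction.cardFactors m ≤ R

theorem aux (y : ℝ) (R m : ℕ) :
    Pool.Agent.TH423.DS.AlmostPrime y R (m : ℤ) ↔ m ≠ 0 ∧ AlmostPrime y R m := by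
  unfold Pool.Agent.TH423.DS.AlmostPrime AlmostPrime
  simp only [Int.natAbs_natCast, Int.natCast_dvd_natCast, Ne, Nat.cast_eq_zero]

/-- Let `ε > 0`.

(A) For every `r` there are `q ≥ 1`, `R`, `N₀` and `δ > 0` such that for all even `N ≥ N₀`: there are
`r` distinct primes `p_i ≡ 1 (mod q)` with `N ^ δ < p_i ≤ N ^ (2 δ)`; and for every abelian group `Γ`,
every completely additive `F : ℕ → Γ`, every subset `S` of `Γ` and all primes `p_1, ..., p_r` of this
kind (not necessarily distinct), if no translate of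
`{∑_{i ∈ A} F(p_i) - ∑_{i ∉ A} F(p_i) : A ⊆ [r]}` is contained in `S - S`, then there are at least
`N ^ (1 - ε)` representations `N = x + y` by positive integers `x`, `y` which are almost prime (at most
`R` prime factors, all larger than `N ^ δ`) with `F(x y) ∉ S`.

(B) For every `k ≥ 1` there are `R`, `N₀` and `δ > 0` such that for all even `N ≥ N₀` the set `V` of
the classes `v` modulo `k` for which `N = x + y` has at least `N ^ (1 - ε)` solutions in such almost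
primes with `Ω(x y) ≡ v (mod k)` is so large that `V - V` contains a translate of the subgroup
generated by `2`; in particular `V - V` is everything if `k` is odd. -/
theorem result (ε : ℝ) (hε : 0 < ε) :
    (∀ r : ℕ, ∃ q R N₀ : ℕ, ∃ δ : ℝ, 0 < q ∧ 0 < δ ∧ ∀ N : ℕ, N₀ ≤ N → Even N →
      (∃ P : Fin r → ℕ, Function.Injective P ∧ ∀ i, (P i).Prime ∧ (N : ℝ) ^ δ < P i ∧
        (P i : ℝ) ≤ (N : ℝ) ^ (2 * δ) ∧ (q : ℤ) ∣ (P i : ℤ) - 1) ∧
      ∀ (Γ : Type) [AddCommGroup Γ] (F : ℕ → Γ),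
      (∀ x y : ℕ, x ≠ 0 → y ≠ 0 → F (x * y) = F x + F y) → ∀ (S : Set Γ) (P : Fin r → ℕ),
      (∀ i, (P i).Prime ∧ (N : ℝ) ^ δ < P i ∧
        (P i : ℝ) ≤ (N : ℝ) ^ (2 * δ) ∧ (q : ℤ) ∣ (P i : ℤ) - 1) →
      (∀ h : Γ, ∃ A : Finset (Fin r), ∀ x ∈ S, ∀ y ∈ S,
        h + (∑ i ∈ A, F (P i) - ∑ i ∈ Aᶜ, F (P i)) ≠ x - y) →
      (N : ℝ) ^ (1 - ε) ≤ ({xy : ℕ × ℕ | 0 < xy.1 ∧ 0 < xy.2 ∧ xy.1 + xy.2 = N ∧
        AlmostPrime ((N : ℝ) ^ δ) R xy.1 ∧ AlmostPrime ((N : ℝ) ^ δ) R xy.2 ∧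
        F (xy.1 * xy.2) ∉ S}.ncard : ℝ)) ∧
    (∀ k : ℕ, 1 ≤ k → ∃ R N₀ : ℕ, ∃ δ : ℝ, 0 < δ ∧ ∀ N : ℕ, N₀ ≤ N → Even N →
      ∀ V : Set (ZMod k), V = {v : ZMod k | (N : ℝ) ^ (1 - ε) ≤
        ({xy : ℕ × ℕ | 0 < xy.1 ∧ 0 < xy.2 ∧ xy.1 + xy.2 = N ∧
          AlmostPrime ((N : ℝ) ^ δ) R xy.1 ∧ AlmostPrime ((N : ℝ) ^ δ) R xy.2 ∧
          ((ArithmeticFunction.cardFactors (xy.1 * xy.2) : ℕ) : ZMod k) = v}.ncard : ℝ)} →
      (∃ h : ZMod k, ∀ d : ZMod k, ∃ x ∈ V, ∃ y ∈ V, x - y = h + 2 * d) ∧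
      (Odd k → ∀ d : ZMod k, ∃ x ∈ V, ∃ y ∈ V, x - y = d)) := by
  classical
  -- the two forms of the set of representations
  have hset : ∀ (Γ : Type) (F : ℕ → Γ) (Q : Γ → Prop) (N R : ℕ) (δ : ℝ),
      {x : ℕ | 1 ≤ x ∧ x < N ∧ Pool.Agent.TH423.DS.AlmostPrime ((N : ℝ) ^ δ) R (x : ℤ) ∧
        Pool.Agent.TH423.DS.AlmostPrime ((N : ℝ) ^ δ) R ((N - x : ℕ) : ℤ) ∧
        Q (F (x * (N - x)))}.ncard =
      {xy : ℕ × ℕ | 0 < xy.1 ∧ 0 < xy.2 ∧ xy.1 + xy.2 = N ∧
        AlmostPrime ((N : ℝ) ^ δ) R xy.1 ∧ AlmostPrime ((N : ℝ) ^ δ) R xy.2 ∧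
        Q (F (xy.1 * xy.2))}.ncard := by
    intro Γ F Q N R δ
    refine Set.ncard_congr (fun x _ => (x, N - x)) ?_ ?_ ?_
    · rintro x ⟨h1, h2, h3, h4, h5⟩
      rw [aux] at h3 h4
      exact ⟨by simp only; omega, by simp only; omega, by simp only; omega, h3.2, h4.2, h5⟩
    · intro x y _ _ h
      simp only [Prod.mk.injEq] at h
      exact h.1
    · rintro ⟨x, y⟩ ⟨h1, h2, h3, h4, h5, h6⟩
      simp only at h1 h2 h3 h4 h5 h6
      have hy : N - x = y := by omega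
      refine ⟨x, ⟨by omega, by omega, ?_, ?_, ?_⟩, by rw [hy]⟩
      · rw [aux]; exact ⟨by omega, h4⟩
      · rw [aux, hy]; exact ⟨by omega, h5⟩
      · rw [hy]; exact h6
  refine ⟨fun r => ?_, ?_⟩
  · obtain ⟨q, R, N₀, δ, hq, hδ, hmain⟩ := Pool.Agent.TH423.GB.main r ε hε
    refine ⟨q, R, N₀, δ, hq, hδ, fun N hN hNe => ⟨(hmain N hN).1, ?_⟩⟩
    intro Γ _ F hF S P hP hcube
    have h1 := (hmain N hN).2 hNe Γ F hF S P hP hcube
    rw [hset Γ F (fun z => z ∉ S) N R δ] at h1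
    exact h1
  intro k hk
  have : NeZero k := ⟨by omega⟩
  obtain ⟨q, R, X₀, δ, hq, hδ, hmain⟩ := Pool.Agent.TH423.GB.main k (ε / 2) (by positivity)
  have hn : Tendsto (fun X : ℕ => (X : ℝ)) atTop atTop := tendsto_natCast_atTop_atTop
  have hn1 : Tendsto (fun X : ℕ => (X : ℝ) ^ (ε / 2)) atTop atTop :=
    (tendsto_rpow_atTop (by positivity)).comp hn
  obtain ⟨X₁, hX₁⟩ := eventually_atTop.1 (hn1.eventually (eventually_gt_atTop (k : ℝ)))
  refine ⟨R, X₀ + X₁ + 1, δ, hδ, ?_⟩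
  intro X hX hXe V hV
  obtain ⟨⟨P, -, hP⟩, hmainX⟩ := hmain X (by omega)
  have hXk := hX₁ X (by omega)
  have hXp : (0 : ℝ) < X := by exact_mod_cast (by omega : 0 < X)
  have hfirst : ∃ h : ZMod k, ∀ d : ZMod k, ∃ x ∈ V, ∃ y ∈ V, x - y = h + 2 * d := by
    by_contra hcon
    push Not at hcon
    have h1 := hmainX hXe (ZMod k) (fun n => ((ArithmeticFunction.cardFactors n : ℕ) : ZMod k))
      (by
        intro x y hx hy
        simp only [ArithmeticFunction.cardFactors_mul hx hy, Nat.cast_add]) V P hP (by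
        intro h
        obtain ⟨d, hd⟩ := hcon h
        have hdk : d.val ≤ (univ : Finset (Fin k)).card := by
          simpa using (ZMod.val_lt d).le
        obtain ⟨A, -, hA⟩ := Finset.exists_subset_card_eq hdk
        refine ⟨A, fun x hx y hy heq => hd x hx y hy ?_⟩
        rw [← heq]
        have e1 : ∀ B : Finset (Fin k), ∑ i ∈ B,
            ((ArithmeticFunction.cardFactors (P i) : ℕ) : ZMod k) = (B.card : ZMod k) := by
          intro B
          rw [Finset.sum_congr rfl fun i _ => by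
            rw [ArithmeticFunction.cardFactors_apply_prime (hP i).1]]
          simp
        simp only [e1]
        have e2 : ((Aᶜ.card : ℕ) : ZMod k) = - d := by
          rw [Finset.card_compl, Fintype.card_fin, hA,
            Nat.cast_sub (ZMod.val_lt d).le, CharP.cast_eq_zero, zero_sub, ZMod.natCast_val,
            ZMod.cast_id]
        rw [e2, hA, ZMod.natCast_val, ZMod.cast_id]
        ring)
    rw [hset (ZMod k) (fun n => ((ArithmeticFunction.cardFactors n : ℕ) : ZMod k))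
      (fun z => z ∉ V) X R δ] at h1
    obtain ⟨B, hB⟩ : ∃ B : Finset (ℕ × ℕ), (B : Set (ℕ × ℕ)) = {xy : ℕ × ℕ | 0 < xy.1 ∧
        0 < xy.2 ∧ xy.1 + xy.2 = X ∧
        AlmostPrime ((X : ℝ) ^ δ) R xy.1 ∧ AlmostPrime ((X : ℝ) ^ δ) R xy.2 ∧
        ((ArithmeticFunction.cardFactors (xy.1 * xy.2) : ℕ) : ZMod k) ∉ V} :=
      Set.Finite.exists_finset_coe (((Set.finite_Iic X).prod (Set.finite_Iic X)).subset
        fun xy hxy => ⟨by have := hxy.2.2.1; simp only [Set.mem_Iic]; omega,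
          by have := hxy.2.2.1; simp only [Set.mem_Iic]; omega⟩)
    have h2 : (X : ℝ) ^ (1 - ε / 2) ≤ (B.card : ℝ) := by
      refine h1.trans (le_of_eq ?_)
      rw [← Set.ncard_coe_finset, hB]
    have h3 : (B.card : ℝ) ≤ k * (X : ℝ) ^ (1 - ε) := by
      rw [Finset.card_eq_sum_card_fiberwise (f := fun xy : ℕ × ℕ =>
        ((ArithmeticFunction.cardFactors (xy.1 * xy.2) : ℕ) : ZMod k))
        (t := univ) (fun _ _ => mem_univ _)]
      push_cast
      calc ∑ v : ZMod k, ((B.filter (fun xy : ℕ × ℕ => ((ArithmeticFunction.cardFactors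
            (xy.1 * xy.2) : ℕ) : ZMod k) = v)).card : ℝ)
          ≤ ∑ v : ZMod k, (X : ℝ) ^ (1 - ε) := by
            apply Finset.sum_le_sum
            intro v _
            by_cases hv : v ∈ V
            · have : B.filter (fun xy : ℕ × ℕ => ((ArithmeticFunction.cardFactors
                  (xy.1 * xy.2) : ℕ) : ZMod k) = v) = ∅ := by
                apply Finset.filter_false_of_mem
                intro n hn hnv
                have h4 : n ∈ (B : Set (ℕ × ℕ)) := hn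
                rw [hB] at h4
                exact h4.2.2.2.2.2 (hnv ▸ hv)
              rw [this]
              simp only [card_empty, Nat.cast_zero]
              positivity
            · have hv' := hv
              rw [hV] at hv'
              simp only [Set.mem_ofPred_eq, not_le] at hv'
              refine le_trans ?_ hv'.le
              rw [← Set.ncard_coe_finset]
              have hsub : ((B.filter (fun xy : ℕ × ℕ => ((ArithmeticFunction.cardFactors
                  (xy.1 * xy.2) : ℕ) : ZMod k) = v) : Finset (ℕ × ℕ)) : Set (ℕ × ℕ)) ⊆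
                {xy : ℕ × ℕ | 0 < xy.1 ∧ 0 < xy.2 ∧ xy.1 + xy.2 = X ∧
                  AlmostPrime ((X : ℝ) ^ δ) R xy.1 ∧ AlmostPrime ((X : ℝ) ^ δ) R xy.2 ∧
                  ((ArithmeticFunction.cardFactors (xy.1 * xy.2) : ℕ) : ZMod k) = v} := by
                intro n hn
                rw [mem_coe, mem_filter] at hn
                have h4 : n ∈ (B : Set (ℕ × ℕ)) := hn.1
                rw [hB] at h4
                exact ⟨h4.1, h4.2.1, h4.2.2.1, h4.2.2.2.1, h4.2.2.2.2.1, hn.2⟩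
              exact_mod_cast Set.ncard_le_ncard hsub
                (((Set.finite_Iic X).prod (Set.finite_Iic X)).subset
                fun xy hxy => ⟨by have := hxy.2.2.1; simp only [Set.mem_Iic]; omega,
                by have := hxy.2.2.1; simp only [Set.mem_Iic]; omega⟩)
        _ = k * (X : ℝ) ^ (1 - ε) := by
            rw [Finset.sum_const, card_univ, ZMod.card, nsmul_eq_mul]
    have h5 : (X : ℝ) ^ (1 - ε / 2) = (X : ℝ) ^ (ε / 2) * (X : ℝ) ^ (1 - ε) := by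
      rw [← Real.rpow_add hXp]; congr 1; ring
    have h6 : (k : ℝ) * (X : ℝ) ^ (1 - ε) < (X : ℝ) ^ (ε / 2) * (X : ℝ) ^ (1 - ε) :=
      mul_lt_mul_of_pos_right hXk (Real.rpow_pos_of_pos hXp _)
    linarith
  refine ⟨hfirst, fun hodd d => ?_⟩
  obtain ⟨h, hh⟩ := hfirst
  have h2 : IsUnit (2 : ZMod k) := by
    have : IsUnit ((2 : ℕ) : ZMod k) := by
      rw [ZMod.isUnit_iff_coprime]
      exact (Nat.coprime_two_left.2 hodd)
    simpa using this
  obtain ⟨u, hu⟩ := h2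
  obtain ⟨x, hx, y, hy, hxy⟩ := hh (↑u⁻¹ * (d - h))
  refine ⟨x, hx, y, hy, ?_⟩
  rw [hxy, ← hu, ← mul_assoc, Units.mul_inv, one_mul]
  ring

end Pool.Agent.Results.MP_33f996_nt.GoldbachDifferenceSets
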