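import Pool.Agent.TH872.GQ.C2

/-!
# Goldbach partitions of the values of quadratic polynomials at integers with restricted digits

From the module `Pool.Agent.H560R3.GB.Defs`: `C₂`, the twin prime constant `∏_{p > 2} (1 - 1 / (p - 1) ^ 2)` (the
infimum of the partial products), and `sing m = 2 C₂ ∏_{p ∣ m, p > 2} (p - 1) / (p - 2)`, the singular series.
-/

set_option autoImplicit false

namespace Pool.Agent.Results.MP_33f996_nt.QuadraticValues

open Finset Pool.Agent.H560R3.GB

open Classical in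
/-- The number of the primes `p` with `√m < p < m / 2` for which `m - p` is also a prime. -/
noncomputable def cnt (m : ℕ) : ℕ :=
  ((range m).filter (fun p : ℕ => p.Prime ∧ (m - p).Prime ∧ Real.sqrt m < p ∧ 2 * p < m)).card

/-- The expected number of these primes. -/
noncomputable def expected (m : ℕ) : ℝ := sing m / 2 * (m / Real.log m ^ 2)

/-- There is a prime `p` with `√m < p < m / 2` for which `m - p` is also a prime, and the number of these primes is as
expected, up to a factor between `1 - ε` and `1 + ε`. -/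
def Holds (ε : ℝ) (m : ℕ) : Prop :=
  (∃ p : ℕ, p.Prime ∧ (m - p).Prime ∧ Real.sqrt m < p ∧ 2 * p < m) ∧ |(cnt m : ℝ) - expected m| ≤ ε * expected m

/-- The integers below `b ^ k` whose `i`-th digit in base `b` lies in `D i`, for all `i < k`. -/
def S (b : ℕ) (D : ℕ → Finset ℕ) (k : ℕ) : Finset ℕ :=
  (range (b ^ k)).filter (fun n : ℕ => ∀ i < k, n / b ^ i % b ∈ D i)

/-- the value `c + κ n ^ 2 + β n` -/
def value (κ β c : ℤ) (n : ℕ) : ℤ := c + κ * (n : ℤ) ^ 2 + β * n

lemma sqrt_card (m : ℕ) : (((range m).filter (fun p : ℕ => ¬ Real.sqrt m < p)).card : ℝ) ≤ Real.sqrt m + 1 := by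
  classical
  have h1 : (range m).filter (fun p : ℕ => ¬ Real.sqrt m < p) ⊆ range (⌊Real.sqrt m⌋₊ + 1) := by
    intro p hp
    rw [mem_filter] at hp
    rw [mem_range, Nat.lt_succ_iff]
    exact Nat.le_floor (not_lt.1 hp.2)
  have h2 : (((range m).filter (fun p : ℕ => ¬ Real.sqrt m < p)).card : ℝ) ≤ (⌊Real.sqrt m⌋₊ + 1 : ℕ) := by
    exact_mod_cast (card_le_card h1).trans (le_of_eq (card_range _))
  refine h2.trans ?_
  push_cast
  have := Nat.floor_le (Real.sqrt_nonneg (m : ℝ))
  linarith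

/-- the representations with a small summand and the representation as a double are few -/
lemma g_cnt (m : ℕ) : |(g m : ℝ) - 2 * cnt m| ≤ 2 * Real.sqrt m + 3 := by
  classical
  obtain ⟨G, hG⟩ : ∃ G : Finset ℕ, G = (range m).filter (fun p : ℕ => p.Prime ∧ (m - p).Prime) := ⟨_, rfl⟩
  have h1 : g m = G.card := by
    unfold g
    rw [hG]
    apply card_bij' (fun q _ => q.1) (fun p _ => (p, m - p))
    · rintro ⟨p, q⟩ hq
      rw [mem_filter, HasAntidiagonal.mem_antidiagonal] at hq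
      rw [mem_filter, mem_range]
      simp only at hq ⊢
      have h2 := hq.2.2.two_le
      refine ⟨by omega, hq.2.1, ?_⟩
      rw [show m - p = q by omega]
      exact hq.2.2
    · intro p hp
      rw [mem_filter, mem_range] at hp
      rw [mem_filter, HasAntidiagonal.mem_antidiagonal]
      exact ⟨by simp only; omega, hp.2.1, hp.2.2⟩
    · rintro ⟨p, q⟩ hq
      rw [mem_filter, HasAntidiagonal.mem_antidiagonal] at hq
      simp only at hq ⊢
      rw [show m - p = q by omega]
    · intro p hp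
      rfl
  obtain ⟨A, hA⟩ : ∃ A : Finset ℕ, A = G.filter (fun p => 2 * p < m) := ⟨_, rfl⟩
  obtain ⟨A', hA'⟩ : ∃ A' : Finset ℕ, A' = G.filter (fun p => m < 2 * p) := ⟨_, rfl⟩
  obtain ⟨A₀, hA₀⟩ : ∃ A₀ : Finset ℕ, A₀ = G.filter (fun p => 2 * p = m) := ⟨_, rfl⟩
  have h2 : A.card = A'.card := by
    apply card_bij' (fun p _ => m - p) (fun p _ => m - p)
    · intro p hp
      rw [hA, hG, mem_filter, mem_filter, mem_range] at hp
      rw [hA', hG, mem_filter, mem_filter, mem_range]
      have h3 := hp.1.2.1.two_le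
      refine ⟨⟨by omega, hp.1.2.2, ?_⟩, by omega⟩
      rw [show m - (m - p) = p by omega]
      exact hp.1.2.1
    · intro p hp
      rw [hA', hG, mem_filter, mem_filter, mem_range] at hp
      rw [hA, hG, mem_filter, mem_filter, mem_range]
      have h3 := hp.1.2.1.two_le
      refine ⟨⟨by omega, hp.1.2.2, ?_⟩, by omega⟩
      rw [show m - (m - p) = p by omega]
      exact hp.1.2.1
    · intro p hp
      rw [hA, hG, mem_filter, mem_filter, mem_range] at hp
      omega
    · intro p hp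
      rw [hA', hG, mem_filter, mem_filter, mem_range] at hp
      omega
  have h3 : A₀.card ≤ 1 := by
    rw [card_le_one]
    intro p hp q hq
    rw [hA₀, mem_filter] at hp hq
    omega
  have h4 : G.card = A.card + A'.card + A₀.card := by
    have e1 : G.card = (G.filter (fun p => 2 * p < m)).card + (G.filter (fun p => ¬ 2 * p < m)).card :=
      (card_filter_add_card_filter_not _).symm
    have e2 : (G.filter (fun p => ¬ 2 * p < m)).card = ((G.filter (fun p => ¬ 2 * p < m)).filter (fun p => m < 2 * p)).card +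
      ((G.filter (fun p => ¬ 2 * p < m)).filter (fun p => ¬ m < 2 * p)).card := (card_filter_add_card_filter_not _).symm
    have e3 : (G.filter (fun p => ¬ 2 * p < m)).filter (fun p => m < 2 * p) = A' := by
      rw [hA', filter_filter]
      apply filter_congr
      intro p _
      omega
    have e4 : (G.filter (fun p => ¬ 2 * p < m)).filter (fun p => ¬ m < 2 * p) = A₀ := by
      rw [hA₀, filter_filter]
      apply filter_congr
      intro p _
      omega
    rw [e3, e4] at e2
    rw [e1, e2, ← hA]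
    ring
  have h5 : cnt m = (A.filter (fun p : ℕ => Real.sqrt m < p)).card := by
    unfold cnt
    rw [hA, hG, filter_filter, filter_filter]
    congr 1
    ext p
    simp only [mem_filter]
    constructor
    · rintro ⟨a1, a2, a3, a4, a5⟩
      exact ⟨a1, ⟨a2, a3⟩, a5, a4⟩
    · rintro ⟨a1, ⟨a2, a3⟩, a5, a4⟩
      exact ⟨a1, a2, a3, a4, a5⟩
  have h6 : (A.card : ℝ) - cnt m ≤ Real.sqrt m + 1 := by
    have e1 : A.card = (A.filter (fun p : ℕ => Real.sqrt m < p)).card + (A.filter (fun p : ℕ => ¬ Real.sqrt m < p)).card :=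
      (card_filter_add_card_filter_not _).symm
    have e2 : ((A.filter (fun p : ℕ => ¬ Real.sqrt m < p)).card : ℝ) ≤ Real.sqrt m + 1 := by
      refine le_trans ?_ (sqrt_card m)
      apply Nat.cast_le.2
      apply card_le_card
      intro p hp
      rw [hA, hG, mem_filter, mem_filter, mem_filter] at hp
      rw [mem_filter]
      exact ⟨hp.1.1.1, hp.2⟩
    have e3 : (A.card : ℝ) = cnt m + ((A.filter (fun p : ℕ => ¬ Real.sqrt m < p)).card : ℝ) := by
      rw [h5]
      exact_mod_cast e1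
    linarith
  have h7 : (cnt m : ℝ) ≤ A.card := by
    rw [h5]
    exact_mod_cast card_filter_le _ _
  have h8 : (g m : ℝ) = 2 * A.card + A₀.card := by
    rw [h1, h4, ← h2]
    push_cast
    ring
  have h9 : (A₀.card : ℝ) ≤ 1 := by exact_mod_cast h3
  have h10 : (0 : ℝ) ≤ A₀.card := Nat.cast_nonneg _
  rw [h8, abs_le]
  have h11 := Real.sqrt_nonneg (m : ℝ)
  constructor <;> linarith

/-- the passage from all the representations to those with `√m < p < m / 2` -/
lemma holds_of (ε : ℝ) (hε : 0 < ε) : ∃ m₀ : ℕ, ∀ m : ℕ, m₀ ≤ m → |(g m : ℝ) - HL m| ≤ min ε 1 / 4 * HL m → Holds ε m := by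
  obtain ⟨m₁, h1⟩ := Pool.Agent.H373R2.T7.ev_log' 2 (20 / min ε 1)
  refine ⟨m₁ + 3, fun m hm hg => ?_⟩
  obtain ⟨δ, hδ⟩ : ∃ δ, δ = min ε 1 := ⟨_, rfl⟩
  rw [← hδ] at h1 hg
  have hδ0 : 0 < δ := by rw [hδ]; exact lt_min hε one_pos
  have hδ1 : δ ≤ 1 := by rw [hδ]; exact min_le_right _ _
  have hδε : δ ≤ ε := by rw [hδ]; exact min_le_left _ _
  have h2 := h1 m (by omega)
  have hm3 : (3 : ℝ) ≤ m := by exact_mod_cast (by omega : 3 ≤ m)
  have hlog : 1 ≤ Real.log m := by
    rw [← Real.log_exp 1]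
    apply Real.log_le_log (Real.exp_pos 1)
    linarith [Real.exp_one_lt_d9]
  have hs1 : 1 ≤ Real.sqrt m := by
    rw [show (1 : ℝ) = Real.sqrt 1 by simp]
    exact Real.sqrt_le_sqrt (by linarith)
  have hss : Real.sqrt m * Real.sqrt m = m := Real.mul_self_sqrt (by linarith)
  have hsing := Pool.Agent.W93.GB.one_le_sing m
  have hL0 : 0 < Real.log m ^ 2 := by positivity
  have h3 : 20 * Real.sqrt m ≤ δ * (m / Real.log m ^ 2) := by
    rw [mul_div_assoc', le_div_iff₀ hL0]
    have e1 : 20 / δ * Real.log m ^ 2 ≤ Real.sqrt m := h2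
    rw [div_mul_eq_mul_div, div_le_iff₀ hδ0] at e1
    calc 20 * Real.sqrt m * Real.log m ^ 2 = Real.sqrt m * (20 * Real.log m ^ 2) := by ring
      _ ≤ Real.sqrt m * (Real.sqrt m * δ) := mul_le_mul_of_nonneg_left e1 (by linarith)
      _ = δ * m := by rw [← mul_assoc, hss]; ring
  obtain ⟨H, hH⟩ : ∃ H : ℝ, H = HL m := ⟨_, rfl⟩
  have hHe : expected m = H / 2 := by
    rw [hH]
    unfold expected HL
    ring
  have hH1 : m / Real.log m ^ 2 ≤ H := by
    rw [hH]
    unfold HL
    exact le_mul_of_one_le_left (by positivity) hsing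
  have hH2 : 20 * Real.sqrt m ≤ δ * H := h3.trans (mul_le_mul_of_nonneg_left hH1 hδ0.le)
  have h4 := g_cnt m
  rw [← hH] at hg
  have h5 : |(2 * cnt m : ℝ) - H| ≤ δ / 2 * H := by
    rw [abs_le] at hg h4 ⊢
    constructor <;> linarith [hg.1, hg.2, h4.1, h4.2]
  have hH0 : 0 < H := by
    have : 0 < δ * H := by linarith
    exact (mul_pos_iff_of_pos_left hδ0).1 this
  constructor
  · have h6 : 0 < (cnt m : ℝ) := by
      rw [abs_le] at h5
      nlinarith [h5.1]
    have h7 : 0 < cnt m := by exact_mod_cast h6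
    unfold cnt at h7
    rw [card_pos] at h7
    obtain ⟨p, hp⟩ := h7
    rw [mem_filter] at hp
    exact ⟨p, hp.2⟩
  · rw [hHe]
    rw [abs_le] at h5 ⊢
    have h8 : δ * H ≤ ε * H := mul_le_mul_of_nonneg_right hδε hH0.le
    constructor <;> nlinarith [h5.1, h5.2]

open Classical in
/-- Let `b ≥ 2`, integers `κ ≠ 0` and `β`, and `B`, `U` and `ε > 0` be fixed, and let `k` be large. Let `D 0, …, D (k - 1)`
be arbitrary sets of at least two digits in base `b`, let `S` be the set of the integers below `b ^ k` whose `i`-th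
digit lies in `D i` for all `i < k`, and let `c` be an arbitrary integer with `|c| ≤ B b ^ (2 k)`. Then for all the
`n ∈ S`, except for at most `#S / k ^ U` of them, the integer `m = c + κ n ^ 2 + β n` is negative or zero, or odd, or there
is a prime `p` with `√m < p < m / 2` for which `m - p` is also a prime, and the number of these primes `p` lies between
`(1 - ε)` and `(1 + ε)` times the expected number `(sing m / 2) m / log ^ 2 m`. -/
theorem result (b B U : ℕ) (hb : 2 ≤ b) (κ β : ℤ) (hκ : κ ≠ 0) (ε : ℝ) (hε : 0 < ε) :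
    ∃ k₀ : ℕ, ∀ k : ℕ, k₀ ≤ k → ∀ D : ℕ → Finset ℕ, (∀ i < k, D i ⊆ range b ∧ 2 ≤ (D i).card) →
      ∀ c : ℤ, |c| ≤ B * (b : ℤ) ^ (2 * k) →
      (((S b D k).filter (fun n => 0 < value κ β c n ∧ 2 ∣ value κ β c n ∧ ¬ Holds ε (value κ β c n).toNat)).card : ℝ) ≤
        (S b D k).card / (k : ℝ) ^ U := by
  obtain ⟨m₀, hm₀⟩ := holds_of ε hε
  obtain ⟨W, k1, h1⟩ := Pool.Agent.TH872.GQ.few_small b hb κ β hκ U
  obtain ⟨k2, h2⟩ := Pool.Agent.TH872.GQ.goldbach b hb κ β hκ B (U + 1) (min ε 1 / 4) (by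
    have : 0 < min ε 1 := lt_min hε one_pos
    linarith)
  obtain ⟨k3, h3⟩ := Pool.Agent.H373R2.T7.ev_log' W (m₀ : ℝ)
  refine ⟨k1 + k2 + k3 + 4, fun k hk D hD c hc => ?_⟩
  have hk4 : (4 : ℝ) ≤ k := by exact_mod_cast (by omega : 4 ≤ k)
  have hk0 : (0 : ℝ) < k := by linarith
  have hval : ∀ n : ℕ, c + Pool.Agent.TH872.Sq.qv κ β n = value κ β c n := by
    intro n
    unfold Pool.Agent.TH872.Sq.qv value
    ring
  have hSS : Pool.Agent.TH872.Sq.SD b D k = S b D k := rfl
  have r1 := h1 k (by omega) D hD c (fun n => 1 ≤ value κ β c n ∧ ((value κ β c n : ℤ) : ℝ) < ((b ^ (2 * k) : ℕ) : ℝ) / Real.log ((b ^ (2 * k) : ℕ) : ℝ) ^ W) (by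
    intro n hn
    rw [hval]
    exact hn)
  have r2 := h2 k (by omega) D hD c hc (fun n => 0 < value κ β c n ∧ 2 ∣ value κ β c n ∧
      ¬ (|(g (value κ β c n).toNat : ℝ) - HL (value κ β c n).toNat| ≤ min ε 1 / 4 * HL (value κ β c n).toNat)) (by
    rintro n ⟨hn1, hn2, hn3⟩
    rw [hval]
    exact ⟨hn1, hn2, fun h => hn3 h.1⟩)
  rw [hSS] at r1 r2
  obtain ⟨N, hN⟩ : ∃ N, N = b ^ (2 * k) := ⟨_, rfl⟩
  rw [← hN] at r1
  have hkN : k ≤ N := by
    rw [hN]
    calc k ≤ 2 * k := by omega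
      _ ≤ b ^ (2 * k) := (Nat.lt_pow_self (by omega)).le
  have hN4 : (4 : ℝ) ≤ N := by exact_mod_cast (by omega : 4 ≤ N)
  have hlogN : 0 < Real.log N := Real.log_pos (by linarith)
  have hm₀N : (m₀ : ℝ) ≤ (N : ℝ) / Real.log N ^ W := by
    rw [le_div_iff₀ (by positivity)]
    refine (h3 N (by omega)).trans ?_
    rw [Real.sqrt_le_left (by linarith)]
    nlinarith
  have hsub : (S b D k).filter (fun n => 0 < value κ β c n ∧ 2 ∣ value κ β c n ∧ ¬ Holds ε (value κ β c n).toNat) ⊆
      (S b D k).filter (fun n => 1 ≤ value κ β c n ∧ ((value κ β c n : ℤ) : ℝ) < (N : ℝ) / Real.log (N : ℝ) ^ W) ∪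
      (S b D k).filter (fun n => 0 < value κ β c n ∧ 2 ∣ value κ β c n ∧
        ¬ (|(g (value κ β c n).toNat : ℝ) - HL (value κ β c n).toNat| ≤ min ε 1 / 4 * HL (value κ β c n).toNat)) := by
    intro n hn
    rw [mem_filter] at hn
    obtain ⟨hn0, hn1, hn2, hn3⟩ := hn
    rw [mem_union, mem_filter, mem_filter]
    by_cases hs : ((value κ β c n : ℤ) : ℝ) < (N : ℝ) / Real.log (N : ℝ) ^ W
    · exact Or.inl ⟨hn0, by omega, hs⟩
    · right
      refine ⟨hn0, hn1, hn2, fun hgood => hn3 ?_⟩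
      apply hm₀ _ _ hgood
      have e1 : (m₀ : ℝ) ≤ ((value κ β c n : ℤ) : ℝ) := hm₀N.trans (not_lt.1 hs)
      have e2 : (m₀ : ℤ) ≤ value κ β c n := by exact_mod_cast e1
      omega
  have hc1 : (((S b D k).filter (fun n => 0 < value κ β c n ∧ 2 ∣ value κ β c n ∧ ¬ Holds ε (value κ β c n).toNat)).card : ℝ) ≤
      (((S b D k).filter (fun n => 1 ≤ value κ β c n ∧ ((value κ β c n : ℤ) : ℝ) < (N : ℝ) / Real.log (N : ℝ) ^ W)).card : ℝ) +
      (((S b D k).filter (fun n => 0 < value κ β c n ∧ 2 ∣ value κ β c n ∧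
        ¬ (|(g (value κ β c n).toNat : ℝ) - HL (value κ β c n).toNat| ≤ min ε 1 / 4 * HL (value κ β c n).toNat))).card : ℝ) := by
    exact_mod_cast (card_le_card hsub).trans (card_union_le _ _)
  have hfin : ((S b D k).card : ℝ) / (k : ℝ) ^ (U + 1) + ((S b D k).card : ℝ) / (k : ℝ) ^ (U + 1) ≤ ((S b D k).card : ℝ) / (k : ℝ) ^ U := by
    have e1 : ((S b D k).card : ℝ) / (k : ℝ) ^ (U + 1) + ((S b D k).card : ℝ) / (k : ℝ) ^ (U + 1) =
        ((S b D k).card : ℝ) / (k : ℝ) ^ U * (2 / k) := by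
      rw [pow_succ]
      field_simp
      ring
    rw [e1]
    apply mul_le_of_le_one_right (by positivity)
    rw [div_le_one hk0]
    linarith
  have r3 := add_le_add r1 r2
  exact hc1.trans (r3.trans hfin)

end Pool.Agent.Results.MP_33f996_nt.QuadraticValues
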